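import Pool.Agent.Q211.Graphon.Prob

/-!
# MP_e2d9cc_pr: a graphon with none of (i)-(iv) whose random graphs are almost never Hamiltonian

Definitions (graphon, connectedness, conditions (ii)-(iv), the random graph and the probability of
being Hamiltonian) are in `Pool.Agent.Q211.Graphon.Defs`.  The graphon lives on `[0,1]` with
Lebesgue measure (`unif`).
-/

open MeasureTheory Set Filter Topology

namespace Pool.Agent.Results.MP_e2d9cc_pr.Counterexample

open Pool.Agent.Q211.Graphon

theorem result : ∃ W : ℝ → ℝ → ℝ,
    IsGraphon W ∧ IsConnected unif W ∧ ¬ ManyLowDegrees unif W ∧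
    ¬ HasNarrowPeninsula unif W ∧ ¬ IsBalancedBipartite unif W ∧
    Tendsto (fun n => probHam unif W n) atTop (𝓝 0) :=
  ⟨W, isGraphon_W, connected_W, not_manyLow_W, not_narrow_W, not_bip_W, tendsto_probHam⟩

end Pool.Agent.Results.MP_e2d9cc_pr.Counterexample
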